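import Pool.Agent.Q280.TMInverse

set_option autoImplicit false

namespace Pool.Agent.Results.MP_be5c27_co.DiagonalHankel

open PowerSeries

/-- `t_n`: the sum of the binary digits of `n`, modulo `2` -/
def t (n : ℕ) : ZMod 2 := ((Nat.digits 2 n).sum : ZMod 2)

/-- `F(X) = ∑ t_n X^n` over `𝔽₂` (`t_0 = 0`) -/
noncomputable def F : PowerSeries (ZMod 2) := PowerSeries.mk t

/-- `G` is a compositional inverse of `F`: `G(0) = 0` and `F(G(X)) = X` -/
def IsInv (G : PowerSeries (ZMod 2)) : Prop :=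
  constantCoeff G = 0 ∧ F.subst G = (X : PowerSeries (ZMod 2))

/-- the coefficient `c_n` of `G`, regarded as the integer `0` or `1` -/
noncomputable def c (G : PowerSeries (ZMod 2)) (n : ℕ) : ℤ := ((coeff n G).val : ℤ)

/-- `H_{p,n}`: the determinant of the `n × n` matrix with `(i,j)` entry `c_{p+i+j-1}`,
`1 ≤ i, j ≤ n` -/
noncomputable def H (G : PowerSeries (ZMod 2)) (p n : ℕ) : ℤ :=
  Matrix.det (Matrix.of fun i j : Fin n => c G (p + ((i : ℕ) + 1) + ((j : ℕ) + 1) - 1))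

theorem H_eq (G : PowerSeries (ZMod 2)) (hG : IsInv G) (p n : ℕ) :
    H G p n = Pool.Agent.Q280.TMHankel.D Pool.Agent.Q280.TMSeq.A (p + 2) n := by
  unfold H Pool.Agent.Q280.TMHankel.D
  congr 1
  ext i j
  simp only [Matrix.of_apply]
  rw [show p + ((i : ℕ) + 1) + ((j : ℕ) + 1) - 1 = p + i + j + 1 by omega]
  unfold c
  rw [Pool.Agent.Q280.TMInverse.G_coeff G hG.1 hG.2 (p + i + j + 1) (by omega),
    show p + (i : ℕ) + j + 1 + 1 = p + 2 + i + j by ring]
  rw [Pool.Agent.Q280.TMSeq.A]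
  rcases Pool.Agent.Q280.TMSeq.r_01 ((p + 2 + (i : ℕ) + j) / 2) with h | h
  · rw [h]; simp
  · rw [h]; simp; rfl

/-- `n` is a sum of distinct powers of `4` -/
def MdB (n : ℕ) : Prop := ∃ S : Finset ℕ, n = ∑ k ∈ S, 4 ^ k

theorem sum_split (S : Finset ℕ) : ∑ k ∈ S, 4 ^ k =
    (if 0 ∈ S then 1 else 0) + 4 * ∑ k ∈ (S.erase 0).image Nat.pred, 4 ^ k := by
  have h1 : ∑ k ∈ (S.erase 0).image Nat.pred, 4 ^ k = ∑ k ∈ S.erase 0, 4 ^ (k.pred) := by
    rw [Finset.sum_image]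
    intro a ha b hb hab
    simp only [Finset.coe_erase, Set.mem_sdiff, Set.mem_singleton_iff] at ha hb
    have h3 : a.pred = b.pred := hab
    have h1 := ha.2
    have h2 := hb.2
    simp only [Nat.pred_eq_sub_one] at h3
    omega
  have h2 : 4 * ∑ k ∈ S.erase 0, 4 ^ (k.pred) = ∑ k ∈ S.erase 0, 4 ^ k := by
    rw [Finset.mul_sum]
    refine Finset.sum_congr rfl fun k hk => ?_
    rw [Finset.mem_erase] at hk
    obtain ⟨j, rfl⟩ : ∃ j, k = j + 1 := ⟨k - 1, by omega⟩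
    rw [Nat.pred_succ, pow_succ]; ring
  rw [h1, h2]
  split_ifs with h
  · rw [← Finset.add_sum_erase S _ h]; simp
  · rw [Finset.erase_eq_of_notMem h]; simp

theorem mdb_step (n : ℕ) : MdB n ↔ n % 4 ≤ 1 ∧ MdB (n / 4) := by
  constructor
  · rintro ⟨S, hS⟩
    rw [sum_split] at hS
    refine ⟨?_, (S.erase 0).image Nat.pred, ?_⟩
    · split_ifs at hS <;> omega
    · split_ifs at hS <;> omega
  · rintro ⟨h1, S, hS⟩
    rcases Nat.lt_or_ge (n % 4) 1 with h | h
    · refine ⟨S.image Nat.succ, ?_⟩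
      rw [Finset.sum_image (fun a _ b _ hab => Nat.succ_injective hab)]
      have : ∑ x ∈ S, 4 ^ x.succ = 4 * ∑ k ∈ S, 4 ^ k := by
        rw [Finset.mul_sum]; refine Finset.sum_congr rfl fun k _ => by rw [pow_succ]; ring
      rw [this, ← hS]; omega
    · refine ⟨insert 0 (S.image Nat.succ), ?_⟩
      rw [Finset.sum_insert (by simp), Finset.sum_image (fun a _ b _ hab => Nat.succ_injective hab)]
      have : ∑ x ∈ S, 4 ^ x.succ = 4 * ∑ k ∈ S, 4 ^ k := by
        rw [Finset.mul_sum]; refine Finset.sum_congr rfl fun k _ => by rw [pow_succ]; ring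
      rw [this, ← hS]; omega

theorem r_mdb (n : ℕ) : (MdB n → Pool.Agent.Q280.TMSeq.r n = 1) ∧
    (¬ MdB n → Pool.Agent.Q280.TMSeq.r n = 0) := by
  induction n using Nat.strong_induction_on with
  | _ n ih =>
    rcases Nat.eq_zero_or_pos n with h | h
    · subst h
      refine ⟨fun _ => Pool.Agent.Q280.TMSeq.r_zero, fun h => absurd ⟨∅, by simp⟩ h⟩
    · rw [Pool.Agent.Q280.TMSeq.r_step, mdb_step n]
      have := ih (n / 4) (by omega)
      by_cases h1 : n % 4 ≤ 1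
      · rw [if_pos h1]
        exact ⟨fun h => this.1 h.2, fun h => this.2 (fun h' => h ⟨h1, h'⟩)⟩
      · rw [if_neg h1]
        exact ⟨fun h => absurd h.1 h1, fun _ => rfl⟩

/-- The compositional inverse exists, and `H_{n,n}` is the indicator of the Moser-de Bruijn set. -/
theorem result : (∃ G, IsInv G) ∧ ∀ G, IsInv G → ∀ n : ℕ, 1 ≤ n →
    (MdB n → H G n n = 1) ∧ (¬ MdB n → H G n n = 0) := by
  refine ⟨Pool.Agent.Q280.TMInverse.exists_inverse, ?_⟩
  intro G hG n _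
  rw [H_eq G hG, Pool.Agent.Q280.TMSeq.diag]
  exact r_mdb n

end Pool.Agent.Results.MP_be5c27_co.DiagonalHankel
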